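import Pool.Agent.H35.SW.Core

/-!
The definitions used in the statement of the consistency theorem: the axioms of ZFC and the
notions of set theoretic topology inside a structure for the membership relation.
-/

namespace SW

/-- The structure `M` satisfies the axioms of ZFC: it satisfies ZF, and every set of pairwise
disjoint nonempty sets has a transversal. -/
class ZFC (M : Type) [SetStr M] : Prop extends ZF M where
  choice : ∀ x : M, (∀ y, E y x → ∃ z, E z y) →
    (∀ y y' z, E y x → E y' x → E z y → E z y' → y = y') →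
    ∃ c, ∀ y, E y x → ∃ z, (E z y ∧ E z c) ∧ ∀ z', E z' y → E z' c → z' = z

section
variable {M : Type} [SetStr M]

/-- `x ⊆ y` -/
def Incl (x y : M) : Prop := ∀ z, E z x → E z y

/-- `z` contains the empty set and with `y` also `y ∪ {y}` -/
def IsInductive (z : M) : Prop := (∃ e, (∀ t, ¬ E t e) ∧ E e z) ∧
  ∀ y, E y z → ∃ s, (∀ t, E t s ↔ E t y ∨ t = y) ∧ E s z

/-- `w` is the set of natural numbers (the least inductive set) -/
def IsOmega (w : M) : Prop := IsInductive w ∧ ∀ z, IsInductive z → Incl w z

/-- `x` is countable: there is an injective function from `x` to the set of natural numbers -/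
def IsCountable (x : M) : Prop := ∃ w f, IsOmega w ∧
  (∀ y, E y x → ∃ n, E n w ∧ PairIn y n f) ∧
  (∀ y n n', PairIn y n f → PairIn y n' f → n = n') ∧
  ∀ y y' n, E y x → E y' x → PairIn y n f → PairIn y' n f → y = y'

/-- `T` is (the set of open sets of) a topology on `X` -/
def IsTopology (X T : M) : Prop :=
  (∀ U, E U T → Incl U X) ∧ E X T ∧
  (∀ c u, Incl c T → (∀ z, E z u ↔ ∃ U, E U c ∧ E z U) → E u T) ∧
  ∀ U V w, E U T → E V T → (∀ z, E z w ↔ E z U ∧ E z V) → E w T

/-- `C` is a closed subset of the space `X` with topology `T` -/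
def IsClosedSet (X T C : M) : Prop := Incl C X ∧ ∃ U, E U T ∧ ∀ z, E z U ↔ E z X ∧ ¬ E z C

/-- the space `X` with topology `T` is regular and `T₁` -/
def IsRegularSpace (X T : M) : Prop :=
  (∀ x, E x X → ∃ C, (∀ z, E z C ↔ z = x) ∧ IsClosedSet X T C) ∧
  ∀ x C, E x X → IsClosedSet X T C → ¬ E x C →
    ∃ U V, E U T ∧ E V T ∧ E x U ∧ Incl C V ∧ ∀ z, ¬ (E z U ∧ E z V)

/-- the space is separable: some countable subset of `X` meets every nonempty open set -/
def IsSeparableSpace (X T : M) : Prop := ∃ D, Incl D X ∧ IsCountable D ∧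
  ∀ U, E U T → (∃ x, E x U) → ∃ x, E x U ∧ E x D

/-- `B` is a base of the topology `T` -/
def IsBaseOf (T B : M) : Prop := Incl B T ∧
  ∀ U x, E U T → E x U → ∃ V, E V B ∧ E x V ∧ Incl V U

/-- `B` is Noetherian: there is no sequence `A₀ ⊊ A₁ ⊊ ...` of members of `B` (the function
`f` is the sequence) -/
def IsNoetherianFamily (B : M) : Prop := ¬ ∃ w f, IsOmega w ∧
  (∀ n, E n w → ∃ A, E A B ∧ PairIn n A f) ∧
  (∀ n A A', PairIn n A f → PairIn n A' f → A = A') ∧
  ∀ n s A A', E n w → (∀ t, E t s ↔ E t n ∨ t = n) → PairIn n A f → PairIn s A' f →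
    Incl A A' ∧ A ≠ A'

/-- `B` has countable rank: for every point `x` of `X`, every subfamily of `B` whose members
contain `x` and of which no member is contained in another one is countable -/
def HasCountableRank (X B : M) : Prop := ∀ x A, E x X → Incl A B →
  (∀ U V, E U A → E V A → Incl U V → U = V) → (∀ U, E U A → E x U) → IsCountable A

/-- the triple `((a, b), c)` is a member of `P` -/
def Trp (a b c P : M) : Prop := ∃ p, IsOP p a b ∧ PairIn p c P

/-- `P` is (the graph of) an operation on `R` -/
def IsOperation (R P : M) : Prop :=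
  (∀ a b, E a R → E b R → ∃ c, E c R ∧ Trp a b c P) ∧
  ∀ a b c c', E a R → E b R → Trp a b c P → Trp a b c' P → c = c'

/-- `R` with addition `P`, multiplication `Q` (graphs), order `L` (set of pairs), zero `z` and
unit `u` is a complete ordered field, that is, a copy of the real numbers -/
structure IsRealNumbers (R P Q L z u : M) : Prop where
  zero_mem : E z R
  one_mem : E u R
  ne : z ≠ u
  add_op : IsOperation R P
  mul_op : IsOperation R Q
  add_comm : ∀ a b c, E a R → E b R → Trp a b c P → Trp b a c P
  add_assoc : ∀ a b c x y s, E a R → E b R → E c R → Trp a b x P → Trp x c s P → Trp b c y P →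
    Trp a y s P
  zero_add : ∀ a, E a R → Trp z a a P
  neg : ∀ a, E a R → ∃ b, E b R ∧ Trp a b z P
  mul_comm : ∀ a b c, E a R → E b R → Trp a b c Q → Trp b a c Q
  mul_assoc : ∀ a b c x y s, E a R → E b R → E c R → Trp a b x Q → Trp x c s Q → Trp b c y Q →
    Trp a y s Q
  one_mul : ∀ a, E a R → Trp u a a Q
  inv : ∀ a, E a R → a ≠ z → ∃ b, E b R ∧ Trp a b u Q
  distrib : ∀ a b c s t x y, E a R → E b R → E c R → Trp b c s P → Trp a s t Q →
    Trp a b x Q → Trp a c y Q → Trp x y t P
  le_refl : ∀ a, E a R → PairIn a a L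
  le_antisymm : ∀ a b, E a R → E b R → PairIn a b L → PairIn b a L → a = b
  le_trans : ∀ a b c, E a R → E b R → E c R → PairIn a b L → PairIn b c L → PairIn a c L
  le_total : ∀ a b, E a R → E b R → PairIn a b L ∨ PairIn b a L
  add_le : ∀ a b c x y, E a R → E b R → E c R → PairIn a b L → Trp a c x P → Trp b c y P →
    PairIn x y L
  mul_nonneg : ∀ a b c, E a R → E b R → PairIn z a L → PairIn z b L → Trp a b c Q →
    PairIn z c L
  sup : ∀ S, Incl S R → (∃ a, E a S) → (∃ b, E b R ∧ ∀ a, E a S → PairIn a b L) →
    ∃ s, E s R ∧ (∀ a, E a S → PairIn a s L) ∧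
      ∀ b, E b R → (∀ a, E a S → PairIn a b L) → PairIn s b L

/-- `d` is (the graph of) a metric on `X` with values in the real numbers `R` (addition `P`,
order `L`, zero `z`) whose topology is `T` -/
def IsMetricFor (X T R P L z d : M) : Prop :=
  (∀ x y, E x X → E y X → ∃ c, E c R ∧ Trp x y c d) ∧
  (∀ x y c c', E x X → E y X → Trp x y c d → Trp x y c' d → c = c') ∧
  (∀ x y, E x X → E y X → (Trp x y z d ↔ x = y)) ∧
  (∀ x y c, E x X → E y X → Trp x y c d → Trp y x c d) ∧
  (∀ x y v a b c s, E x X → E y X → E v X → Trp x y a d → Trp y v b d → Trp x v c d →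
    Trp a b s P → PairIn c s L) ∧
  ∀ U, E U T ↔ Incl U X ∧ ∀ x, E x U → ∃ r, E r R ∧ PairIn z r L ∧ r ≠ z ∧
    ∀ y c, E y X → Trp x y c d → PairIn c r L → c ≠ r → E y U

/-- the space `X` with topology `T` is metrizable: for every copy of the real numbers there is a
metric with values in it whose topology is `T` -/
def IsMetrizableSpace (X T : M) : Prop := ∀ R P Q L z u, IsRealNumbers R P Q L z u →
  ∃ d, IsMetricFor X T R P L z d

end

/-- the metrization statement for the structure `N`: if a separable regular space `X` (with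
topology `T`) of `N` has a base `B` which is Noetherian and of countable rank, then `B` is
countable and the space is metrizable -/
def MetrizationIn (N : Type) [SetStr N] : Prop := ∀ X T B : N, IsTopology X T →
  IsRegularSpace X T → IsSeparableSpace X T → IsBaseOf T B → IsNoetherianFamily B →
  HasCountableRank X B → IsCountable B ∧ IsMetrizableSpace X T

end SW
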