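import Pool.Agent.H35.SW.All
import Pool.Agent.H13.MA.Core

/-!
The results of the library SW in ready to use form.
-/

set_option linter.unusedVariables false
set_option synthInstance.maxSize 100000

namespace SW

section
variable {M : Type} [SetStr M] [ZF M]

/-- facts about finite sets -/
theorem finF : FinFacts M := fin M

theorem collF : CollStmt M := coll M

theorem hartF : HartStmt M := hart M

variable {F : FPoset M} {G : M → Prop}

theorem eqF (F : FPoset M) : EqFacts F := eq M F

theorem genF (hG : Gen F G) : GenFacts F G := gm M F G hG

theorem extF (hG : Gen F G) : ExtFacts F G := quo eq gm M F G hG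

theorem embF (hG : Gen F G) : EmbFacts F G := embf eq gm (quo eq gm) M F G hG

theorem semF [Countable M] (F : FPoset M) : FSFacts F := sem (tru eq gm (quo eq gm)) M F

theorem frcF (F : FPoset M) : FrcFacts F := tru eq gm (quo eq gm) M F

/-- the extension satisfies ZF -/
theorem zfX (hG : Gen F G) : ZF (Ext F G) :=
  ZF_ext (zfa eq gm (quo eq gm)) (zfb eq gm (quo eq gm) coll (zfa eq gm (quo eq gm))) M F G hG

theorem traF (hG : Gen F G) [ZF (Ext F G)] : TraFacts F G :=
  tra (embf eq gm (quo eq gm)) fin (hf fin) M F G hG

theorem valF [Countable M] (hG : Gen F G) [ZF (Ext F G)] : IsGenExt (emb F G) :=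
  val (quo eq gm) (embf eq gm (quo eq gm)) M F G hG inferInstance

end

end SW
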