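import Pool.Agent.H13.MA.Stmts

/-!
Module NB2: if the nice name is in the system then the generic filter gives an uncountable free
set.
-/

set_option linter.unusedVariables false
set_option synthInstance.maxSize 100000

namespace SW

section
variable {M : Type} [SetStr M] [ZF M]

/-- in a directed set finitely many requirements can be met at the same time -/
theorem nb2_dir {g0 : M} (hne : ∃ s, E s g0)
    (hdir : ∀ s s', E s g0 → E s' g0 → ∃ r, E r g0 ∧ Sub s r ∧ Sub s' r)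
    (R : M → M → Prop) (hR : Cl2 R) (hmono : ∀ y s s', R y s → Sub s s' → R y s') (g : M)
    (hg : Fnt g) (h : ∀ y, E y g → ∃ s, E s g0 ∧ R y s) : ∃ s, E s g0 ∧ ∀ y, E y g → R y s := by
  revert h
  refine (finF (M := M)).ind (fun g : M => (∀ y : M, E y g → ∃ s : M, E s g0 ∧ R y s) →
    ∃ s : M, E s g0 ∧ ∀ y : M, E y g → R y s) inferInstance ?_ ?_ g hg
  · intro _
    obtain ⟨s, hs⟩ := hne
    exact ⟨s, hs, fun y hy => absurd hy (not_mem_emp y)⟩
  · intro x a _ _ ih h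
    obtain ⟨s, hs, h1⟩ := ih fun y hy => h y (by rw [mem_ins]; exact Or.inl hy)
    obtain ⟨s', hs', h2⟩ := h a (by rw [mem_ins]; exact Or.inr rfl)
    obtain ⟨r, hr, h3, h4⟩ := hdir s s' hs hs'
    refine ⟨r, hr, fun y hy => ?_⟩
    rw [mem_ins] at hy
    rcases hy with hy | rfl
    · exact hmono y s r (h1 y hy) h3
    · exact hmono _ s' r h2 h4

/-- the section of a finite set of pairs is finite -/
theorem nb2_fnt {s e w : M} (hs : Fnt s) : Fnt (sep w (fun x => E (opair e x) s)) := by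
  have hf : Fn1 (fun z : M => the (fun x : M => z = opair e x)) := inferInstance
  refine (finF (M := M)).sub ((finF (M := M)).img (fun z : M => the (fun x : M => z = opair e x))
    hf hs) fun x hx => ?_
  rw [mem_sep] at hx
  rw [mem_img' hf]
  refine ⟨_, hx.2, ?_⟩
  refine (the_eq (p := fun y : M => opair e x = opair e y) rfl fun y hy => ?_).symm
  rw [opair_inj] at hy
  exact hy.2.symm

/-- two members of a section satisfy the relation -/
theorem nb2_free {w I t p e : M} {G : M → Prop} (hG : Gen (PF w I) G) (hp : G p)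
    (hN : Nice w I (DB w I t p) e) {s x y : M} (hs : G s) (hx : E (opair e x) s)
    (hy : E (opair e y) s) : ∃ q, G q ∧ FB w I t x y q := by
  have hsP := mem_PP.1 (hG.sub s hs)
  obtain ⟨q, hq, htr⟩ := hsP.2.2 e x y hx hy
  obtain ⟨x', y', q', _, _, hq', hD, he⟩ := hN.1 _ htr
  rw [opair_inj, opair_inj] at he
  obtain ⟨⟨rfl, rfl⟩, rfl⟩ := he
  have hqG : G q := hG.up s q hs hq' hq
  refine ⟨q, hqG, ?_⟩
  rcases hD with h | h
  · exfalso
    obtain ⟨r, hr, h1, h2⟩ := hG.dir q p hqG hp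
    exact h ⟨r, hG.sub r hr, h1, h2⟩
  · exact h.2

/-- a true membership is witnessed by the name -/
theorem nb2_wit {w I t p e : M} {G : M → Prop} (hG : Gen (PF w I) G) (hp : G p)
    (hN : Nice w I (DB w I t p) e)
    (hmono : ∀ x y q q', FB w I t x y q → E q' (PP w I) → Sub q q' → FB w I t x y q')
    {x y q : M} (hxw : E x w) (hyw : E y w) (hq : G q) (hF : FB w I t x y q) :
    ∃ q', G q' ∧ Tr e x y q' := by
  obtain ⟨r, hr, h1, h2⟩ := hG.dir q p hq hp
  have h1' : Sub q r := h1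
  have h2' : Sub p r := h2
  have hrP := hG.sub r hr
  have hgf := genF hG
  obtain ⟨r', hr', _, q', h3, h4⟩ := hgf.meetB (fun r' : M => ∃ q' : M, Tr e x y q' ∧ Sub q' r')
    inferInstance r hr (by
      intro s hs hle
      have hle' : Sub r s := hle
      have hD : DB w I t p x y s := Or.inr ⟨h2'.trans hle',
        hmono x y q s hF hs (h1'.trans hle')⟩
      obtain ⟨q', h3, s', hs', h4, h5⟩ := hN.2.1 x y s hxw hyw hs hD
      exact ⟨s', hs', h5, q', h3, h4⟩)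
  obtain ⟨x', y', q'', _, _, hq', _, he⟩ := hN.1 _ h3
  rw [opair_inj] at he
  obtain ⟨_, rfl⟩ := he
  exact ⟨q', hG.up r' q' hr' hq' h4, h3⟩

theorem emb_opair_iff {F : FPoset M} {G : M → Prop} (hG : Gen F G) [ZF (Ext F G)] {a b c : M} :
    E (opair (emb F G a) (emb F G b)) (emb F G c) ↔ E (opair a b) c := by
  rw [← (traF hG).opair, (embF hG).mem]

/-- the density argument -/
theorem nb2_dense [Countable M] {w H I t p e : M} (hsys : Sys w I)
    (hfb : ∀ x y q q', FB w I t x y q → E q' (PP w I) → Sub q q' → FB w I t x y q')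
    (htr : ∀ G, Gen (PF w I) G → ∀ [ZF (Ext (PF w I) G)], ∀ x y,
      (E (opair (emb (PF w I) G x) (emb _ G y)) (mk _ G t) ↔ ∃ q, G q ∧ FB w I t x y q))
    (hecl : ECLStmt) (hQ : FS (PF w I) QEx p ![chk (PF w I) (Fs w), chk (PF w I) w, t])
    (hN : Nice w I (DB w I t p) e) (he : E e I) {s b : M} (hs : E s (PP w I)) (hps : Sub p s)
    (hp : E p (PP w I)) (hb : E b w) :
    ∃ r, E r (PP w I) ∧ Sub s r ∧ ∃ x, E x w ∧ E b x ∧ E (opair e x) r := by
  obtain ⟨G, hG, hsG⟩ := (semF (PF w I)).ex s hs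
  have hz : ZF (Ext (PF w I) G) := zfX hG
  have hpG : G p := hG.up s p hsG hp hps
  have hem := embF hG
  have htf := traF hG
  have hex : ExtF (emb (PF w I) G (Fs w)) (emb (PF w I) G w) (mk (PF w I) G t) := hQ G hG hpG
  have hsec : ∀ x, E x (sep w (fun x => E (opair e x) s)) ↔ E x w ∧ E (opair e x) s :=
    fun x => mem_sep
  have hfin : Fnt (sep w (fun x => E (opair e x) s)) := nb2_fnt (mem_PP.1 hs).1
  generalize sep w (fun x => E (opair e x) s) = f at hsec hfin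
  have hfw : E f (Fs w) := by
    unfold Fs
    rw [mem_sep, mem_pow]
    exact ⟨fun x hx => ((hsec x).1 hx).1, hfin⟩
  obtain ⟨x, hxw, hbx, hxx, hxy⟩ := hex (emb (PF w I) G f) ((hem.mem _ _).2 hfw) (by
    intro x y hx hy
    obtain ⟨x, hx', rfl⟩ := hem.trans _ _ hx
    obtain ⟨y, hy', rfl⟩ := hem.trans _ _ hy
    rw [pairIn_iff]
    exact (htr G hG x y).2 (nb2_free hG hpG hN hsG ((hsec x).1 hx').2 ((hsec y).1 hy').2))
    (emb (PF w I) G b) ((hem.mem _ _).2 hb)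
  obtain ⟨x, hxw', rfl⟩ := hem.trans _ _ hxw
  have hbx' := (hem.mem _ _).1 hbx
  clear hxw
  rename E x w => hxw
  -- witnesses in the filter
  have hwit : ∀ a c, E a w → E c w → PairIn (emb (PF w I) G a) (emb (PF w I) G c) (mk _ G t) →
      ∃ q', G q' ∧ Tr e a c q' := by
    intro a c ha hc h
    rw [pairIn_iff] at h
    obtain ⟨q, hq, hF⟩ := (htr G hG a c).1 h
    exact nb2_wit hG hpG hN hfb ha hc hq hF
  -- collect them
  have hgm := hem.G_mem
  have hdir : ∀ s s', E s (mk (PF w I) G (Gnm (PF w I))) → E s' (mk (PF w I) G (Gnm (PF w I))) →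
      ∃ r, E r (mk (PF w I) G (Gnm (PF w I))) ∧ Sub s r ∧ Sub s' r := by
    intro a c ha hc
    rw [hgm] at ha hc
    obtain ⟨a, ha, rfl⟩ := ha
    obtain ⟨c, hc, rfl⟩ := hc
    obtain ⟨r, hr, h1, h2⟩ := hG.dir a c ha hc
    refine ⟨emb _ G r, (hgm _).2 ⟨r, hr, rfl⟩, (htf.sub _ _).2 h1, (htf.sub _ _).2 h2⟩
  obtain ⟨s1, hs1, h1⟩ := nb2_dir (g0 := mk (PF w I) G (Gnm (PF w I)))
    ⟨_, (hgm _).2 ⟨s, hsG, rfl⟩⟩ hdir
    (fun y r : Ext (PF w I) G => (∃ q : Ext (PF w I) G, Sub q r ∧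
      Tr (emb (PF w I) G e) (emb (PF w I) G x) y q) ∧ ∃ q : Ext (PF w I) G, Sub q r ∧
      Tr (emb (PF w I) G e) y (emb (PF w I) G x) q) inferInstance
    (by
      rintro y r r' ⟨⟨q, h1, h2⟩, q', h3, h4⟩ h5
      exact ⟨⟨q, h1.trans h5, h2⟩, q', h3.trans h5, h4⟩)
    (emb (PF w I) G (ins x f)) (htf.fnt _ ((finF (M := M)).ins hfin))
    (by
      intro y hy0
      obtain ⟨y, hy, rfl⟩ := hem.trans _ _ hy0
      rw [mem_ins] at hy
      have h2 : E y w ∧ PairIn (emb (PF w I) G x) (emb (PF w I) G y) (mk _ G t) ∧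
          PairIn (emb (PF w I) G y) (emb (PF w I) G x) (mk _ G t) := by
        rcases hy with hy | rfl
        · exact ⟨((hsec y).1 hy).1, hxy _ ((hem.mem _ _).2 hy)⟩
        · exact ⟨hxw, hxx, hxx⟩
      obtain ⟨hyw, h3, h4⟩ := h2
      obtain ⟨q, hq, h5⟩ := hwit _ _ hxw hyw h3
      obtain ⟨q', hq', h6⟩ := hwit _ _ hyw hxw h4
      obtain ⟨r, hr, h7, h8⟩ := hG.dir q q' hq hq'
      refine ⟨emb _ G r, (hgm _).2 ⟨r, hr, rfl⟩, ⟨emb _ G q, (htf.sub _ _).2 h7, ?_⟩,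
        emb _ G q', (htf.sub _ _).2 h8, ?_⟩
      · unfold Tr
        rw [← htf.opair, emb_opair_iff hG]
        exact h5
      · unfold Tr
        rw [← htf.opair, emb_opair_iff hG]
        exact h6)
  rw [hgm] at hs1
  obtain ⟨s1, hs1, rfl⟩ := hs1
  obtain ⟨s', hs', h2, h3⟩ := hG.dir s1 s hs1 hsG
  have h2' : Sub s1 s' := h2
  have h3' : Sub s s' := h3
  -- translate back
  have hback : ∀ y a q, Sub q (emb (PF w I) G s1) →
      Tr (emb (PF w I) G e) (emb (PF w I) G y) (emb (PF w I) G a) q →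
      ∃ q', Sub q' s' ∧ Tr e y a q' := by
    intro y a q hq htr'
    unfold Tr at htr'
    obtain ⟨z, hz, hz'⟩ := hem.trans _ _ htr'
    obtain ⟨x1, y1, q1, _, _, _, _, rfl⟩ := hN.1 _ hz
    rw [htf.opair, opair_inj, htf.opair, opair_inj, hem.inj, hem.inj] at hz'
    obtain ⟨⟨rfl, rfl⟩, rfl⟩ := hz'
    exact ⟨q1, ((htf.sub _ _).1 hq).trans h2', hz⟩
  have h4 : ∀ y, E y (ins x f) → (∃ q, Sub q s' ∧ Tr e x y q) ∧ ∃ q, Sub q s' ∧ Tr e y x q := by
    intro y hy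
    obtain ⟨⟨q, hq, h5⟩, q', hq', h6⟩ := h1 (emb _ G y) ((hem.mem _ _).2 hy)
    exact ⟨hback _ _ q hq h5, hback _ _ q' hq' h6⟩
  obtain ⟨r, hr, h5, h6⟩ := hecl M w I e s s' x hsys he hs (hG.sub s' hs') h3' hxw
    (fun y hy => h4 y (by
      rw [mem_ins, hsec]
      have h7 := (mem_PP.1 hs).2.1 _ hy
      rw [mem_prod] at h7
      exact Or.inl ⟨h7.2, hy⟩))
    (h4 x (by rw [mem_ins]; exact Or.inr rfl)).1
  exact ⟨r, hr, h5, x, hxw, hbx', h6⟩

end

theorem ma_nb2 (hfbf : FBFStmt) (hwx : WXStmt) (hwf : WFStmt) (hecl : ECLStmt) : NB2Stmt := by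
  intro M _ _ _ w H I hm G hG _ t p e hp hQ hN he
  obtain ⟨_, hmono, htr⟩ := hfbf M w I t
  have hem := embF hG
  have htf := traF hG
  have hgf := genF hG
  have hpP : E p (PP w I) := hG.sub p hp
  have hW : IsW (emb (PF w I) G w) := (hwx M w I G hm.w1 hm.ccc hG).1
  have hA : ∀ x, E x (sep (emb (PF w I) G w) (fun x => ∃ s, E s (mk (PF w I) G (Gnm (PF w I))) ∧
      E (opair (emb (PF w I) G e) x) s)) ↔ E x (emb (PF w I) G w) ∧
      ∃ s, E s (mk (PF w I) G (Gnm (PF w I))) ∧ E (opair (emb (PF w I) G e) x) s :=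
    fun x => mem_sep
  refine ⟨_, fun x hx => ((hA x).1 hx).1, ?_, ?_⟩
  · refine (hwf (Ext (PF w I) G) (emb (PF w I) G w) hW).unc (fun x hx => ((hA x).1 hx).1) ?_
    intro b hb0
    obtain ⟨b, hb, rfl⟩ := hem.trans _ _ hb0
    obtain ⟨r, hr, _, x, hx, hbx, hex⟩ := hgf.meetB
      (fun r : M => ∃ x : M, E x w ∧ E b x ∧ E (opair e x) r) inferInstance p hp (by
        intro s hs hps
        obtain ⟨r, hr, h1, h2⟩ := nb2_dense (H := H) hm.sys hmono htr hecl hQ hN he hs hps hpP hb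
        exact ⟨r, hr, h1, h2⟩)
    refine ⟨emb _ G x, (hA _).2 ⟨(hem.mem _ _).2 hx, emb _ G r, (hem.G_mem _).2 ⟨r, hr, rfl⟩, ?_⟩,
      (hem.mem _ _).2 hbx⟩
    rw [emb_opair_iff hG]
    exact hex
  · intro x y hx hy
    rw [hA] at hx hy
    obtain ⟨hx, s, hs, hxs⟩ := hx
    obtain ⟨hy, s', hs', hys⟩ := hy
    obtain ⟨x, hx, rfl⟩ := hem.trans _ _ hx
    obtain ⟨y, hy, rfl⟩ := hem.trans _ _ hy
    rw [hem.G_mem] at hs hs'
    obtain ⟨s, hs, rfl⟩ := hs
    obtain ⟨s', hs', rfl⟩ := hs'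
    rw [emb_opair_iff hG] at hxs hys
    obtain ⟨r, hr, h1, h2⟩ := hG.dir s s' hs hs'
    rw [pairIn_iff]
    exact (htr G hG x y).2 (nb2_free hG hp hN hr (h1 _ hxs) (h2 _ hys))

end SW
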