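import Pool.Agent.H13.MA.Stmts

/-!
The main theorem of the forcing part from the modules.
-/

set_option linter.unusedVariables false
set_option synthInstance.maxSize 100000

namespace SW

theorem gmain (hmxe : MXEStmt) (hw0 : W0Stmt) (hacx : ACXStmt) (hwx : WXStmt) (hnb3 : NB3Stmt)
    (hfre : FREStmt) : GMAINStmt := by
  intro M _ _ _
  obtain ⟨w, hw⟩ := hw0 M
  obtain ⟨H, I, hm⟩ := hmxe M w hw
  obtain ⟨G, hG, _⟩ := (semF (PF w I)).ex (PF w I).one (PF w I).one_mem
  have hz : ZFC (Ext (PF w I) G) := hacx M (PF w I) G hG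
  refine ⟨Ext (PF w I) G, inferInstance, hz, emb (PF w I) G, valF hG, emb (PF w I) G w, ?_, ?_⟩
  · exact (hwx M w I G hw hm.ccc hG).1
  · exact hfre (Ext (PF w I) G) (emb (PF w I) G w) (hwx M w I G hw hm.ccc hG).1
      (fun B hB => hnb3 M w H I hm G hG B hB)

end SW
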