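import Pool.Agent.H13.MA.MStmts
import Pool.Agent.H13.MA.Gmain

/-!
Assembly of the topological part and of the consistency theorem.
-/

set_option linter.unusedVariables false
set_option synthInstance.maxSize 100000

namespace SW

theorem tmain (hspc : SPCStmt) (hbcx : BCXStmt) (hctr : CTRStmt) : TMAINStmt := by
  intro M _ _ w hw hF X T B h1 h2 h3 h4 h5 h6
  obtain ⟨D, hD⟩ := hspc M X T B h1 h2 h3 h4 h5 h6
  exact (hctr M B).2 (hbcx M w X T B D hw hF hD)

theorem masem (hg : GMAINStmt) (ht : TMAINStmt) (hl : LSZStmt) (hz : ZFMStmt) (hm : MFINStmt) :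
    (∀ (M : Type) [SetStr M] [ZFC M] [Countable M],
      ∃ (N : Type) (_ : SetStr N) (_ : ZFC N) (i : M → N), IsGenExt i ∧ MetrizationIn N) ∧
    (∀ (M : Type) [SetStr M] [ZFC M],
      ∃ (N : Type) (_ : SetStr N) (_ : ZFC N), MetrizationIn N) ∧
    ∃ (N : Type) (_ : SetStr N) (_ : ZFC N), Countable N ∧ MetrizationIn N := by
  have h1 : ∀ (M : Type) [SetStr M] [ZFC M] [Countable M],
      ∃ (N : Type) (_ : SetStr N) (_ : ZFC N) (i : M → N), IsGenExt i ∧ MetrizationIn N := by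
    intro M _ _ _
    obtain ⟨N, _, _, i, hi, w, hw, hF⟩ := hg M
    refine ⟨N, inferInstance, inferInstance, i, hi, fun X T B h1 h2 h3 h4 h5 h6 => ?_⟩
    have h7 := ht N w hw hF X T B h1 h2 h3 h4 h5 h6
    exact ⟨h7, hm N X T B h1 h2 h4 h7⟩
  refine ⟨h1, fun M _ _ => ?_, ?_⟩
  · obtain ⟨M', _, _, hc⟩ := hl M
    obtain ⟨N, _, _, i, _, hN⟩ := h1 M'
    exact ⟨N, inferInstance, inferInstance, hN⟩
  · obtain ⟨M', _, _, hc⟩ := hz
    obtain ⟨N, _, _, i, hi, hN⟩ := h1 M'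
    exact ⟨N, inferInstance, inferInstance, cnt M' N i hi, hN⟩

end SW
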