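import Pool.Agent.H13.MA.Stmts

/-!
Statements of the modules, part T (topology inside a model of ZFC with the principle FREE).
-/

set_option linter.unusedVariables false
set_option synthInstance.maxSize 100000

namespace SW

/-- BLK: blocks of the same finite size -/
def BLKStmt : Prop := ∀ (M : Type) [SetStr M] [ZFC M] (w B : M), IsW w →
  (∀ x y, E (opair x y) B → E (opair y x) B) → NCC w B →
  ∃ n β, E n om ∧ (∀ a i, E a w → E i n → E (app β (opair a i)) w) ∧
    (∀ a b i j, E b w → E a b → E i n → E j n →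
      E (app β (opair a i)) (app β (opair b j))) ∧
    ∀ a b, E b w → E a b → ∃ i j, E i n ∧ E j n ∧
      ¬ E (opair (app β (opair a i)) (app β (opair b j))) B

section
variable {M : Type} [SetStr M] [ZF M]

/-- every union of members of `O` is a union of countably many of them -/
def HLp (O : M) : Prop := ∀ u, Sub u O → ∃ c, Sub c u ∧ Cb c ∧ Sub (sUn u) (sUn c)

/-- for every union `N` of members of `O` there are countably many members of `O`, not contained
in `N`, such that every member of `O` not contained in `N` contains one of them -/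
def PBp (O : M) : Prop := ∀ u, Sub u O → ∃ W, Sub W O ∧ Cb W ∧
  (∀ z, E z W → ¬ Sub z (sUn u)) ∧ ∀ z, E z O → ¬ Sub z (sUn u) → ∃ z', E z' W ∧ Sub z' z

/-- `V` is a family of members of `O`, indexed by `w`, none of which is contained in a later
one -/
def Dec (w O V : M) : Prop := (∀ a, E a w → E (app V a) O) ∧
  ∀ a b, E b w → E a b → ¬ Sub (app V a) (app V b)

end

/-- KEY -/
def KEYStmt : Prop := ∀ (M : Type) [SetStr M] [ZFC M] (w O V n β : M), IsW w → Dec w O V →
  HLp O → PBp O → E n om → (∀ a i, E a w → E i n → E (app β (opair a i)) w) →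
  (∀ a b i j, E b w → E a b → E i n → E j n → E (app β (opair a i)) (app β (opair b j))) →
  (∀ a b, E b w → E a b → ∃ i j, E i n ∧ E j n ∧
    Sub (app V (app β (opair b j))) (app V (app β (opair a i)))) → False

/-- COMB: from FREE, BLK and KEY -/
def COMBStmt : Prop := ∀ (M : Type) [SetStr M] [ZFC M] (w O V : M), IsW w → FREE w → Dec w O V →
  HLp O → PBp O → ∃ A, Sub A w ∧ ¬ Cb A ∧
    ∀ a b, E a A → E b A → a ≠ b → ¬ Sub (app V a) (app V b)

section
variable {M : Type} [SetStr M] [ZF M]

/-- `y` is in the closure of `A` -/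
def Clo (T A y : M) : Prop := ∀ U, E U T → E y U → ∃ z, E z U ∧ E z A

theorem Clo_df : Cl3 (fun T A y : M => Clo T A y) := by unfold Clo; infer_instance

instance {n : ℕ} {t s u : (Fin n → M) → M} [ht : DfT t] [hs : DfT s] [hu : DfT u] :
    Df (fun v => Clo (t v) (s v) (u v)) := Clo_df.comp3 ht hs hu

/-- a regular space `X` with topology `T`, base `B` and countable dense set `D`; nonempty
subfamilies of `B` have maximal elements and incomparable subfamilies of `B` are countable -/
structure Sp (X T B D : M) : Prop where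
  sub : ∀ {U}, E U T → Sub U X
  top : E X T
  uni : ∀ {c}, Sub c T → E (sUn c) T
  int : ∀ {U V}, E U T → E V T → E (inter U V) T
  reg : ∀ {U x}, E U T → E x U → ∃ V, E V T ∧ E x V ∧ ∀ y, E y X → Clo T V y → E y U
  bT : Sub B T
  bas : ∀ {U x}, E U T → E x U → ∃ V, E V B ∧ E x V ∧ Sub V U
  dX : Sub D X
  dC : Cb D
  dns : ∀ {U}, E U T → (∃ x, E x U) → ∃ x, E x U ∧ E x D
  max : ∀ S, Sub S B → (∃ A, E A S) → ∃ A, E A S ∧ ∀ A', E A' S → Sub A A' → A' = A
  inc : ∀ A, Sub A B → (∀ U V, E U A → E V A → Sub U V → U = V) → Cb A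

end

/-- CTR: the two notions of countability agree -/
def CTRStmt : Prop := ∀ (M : Type) [SetStr M] [ZF M] (x : M), IsCountable x ↔ Cb x

/-- SPC: the hypotheses of the theorem give a structure `Sp` -/
def SPCStmt : Prop := ∀ (M : Type) [SetStr M] [ZFC M] (X T B : M), IsTopology X T →
  IsRegularSpace X T → IsSeparableSpace X T → IsBaseOf T B → IsNoetherianFamily B →
  HasCountableRank X B → ∃ D, Sp X T B D

/-- HLX: the space is hereditarily Lindelöf -/
def HLXStmt : Prop := ∀ (M : Type) [SetStr M] [ZFC M] (w X T B D : M), IsW w → Sp X T B D → HLp T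

/-- TRC: the trace lemma -/
def TRCStmt : Prop := ∀ (M : Type) [SetStr M] [ZFC M] (w X T B D V : M), IsW w → FREE w →
  Sp X T B D → (∀ a, E a w → E (app V a) B) →
  (∀ a b, E b w → E a b → ¬ Sub (inter (app V a) D) (app V b)) → False

/-- HSX: the space is hereditarily separable -/
def HSXStmt : Prop := ∀ (M : Type) [SetStr M] [ZFC M] (w X T B D : M), IsW w → FREE w →
  Sp X T B D → ∀ Y, Sub Y X → ∃ Z, Sub Z Y ∧ Cb Z ∧ ∀ y, E y Y → Clo T Z y

/-- FCX: the space is first countable -/
def FCXStmt : Prop := ∀ (M : Type) [SetStr M] [ZFC M] (w X T B D : M), IsW w → FREE w →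
  Sp X T B D → ∀ p, E p X → ∃ c, Sub c T ∧ Cb c ∧ (∀ W, E W c → E p W) ∧
    ∀ V, E V T → E p V → ∃ W, E W c ∧ Sub W V

/-- BCX: the base is countable -/
def BCXStmt : Prop := ∀ (M : Type) [SetStr M] [ZFC M] (w X T B D : M), IsW w → FREE w →
  Sp X T B D → Cb B

/-- TMAIN: in a model of ZFC with the principle FREE the bases in question are countable -/
def TMAINStmt : Prop := ∀ (M : Type) [SetStr M] [ZFC M] (w : M), IsW w → FREE w →
  ∀ X T B : M, IsTopology X T → IsRegularSpace X T → IsSeparableSpace X T → IsBaseOf T B →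
    IsNoetherianFamily B → HasCountableRank X B → IsCountable B

/-- LSZ: a model of ZFC gives a countable one -/
def LSZStmt : Prop := ∀ (M : Type) [SetStr M] [ZFC M],
  ∃ (N : Type) (_ : SetStr N) (_ : ZFC N), Countable N

/-- ZFM: there is a countable model of ZFC (from `ZFSet`, a structure in `Type 1`) -/
def ZFMStmt : Prop := ∃ (M : Type) (_ : SetStr M) (_ : ZFC M), Countable M

end SW
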