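import Pool.Agent.H12.MA.DEL
import Pool.Agent.H12.MA.WO
import Pool.Agent.H12.MA.ZORN
import Pool.Agent.H13.MA.Nb2
import Pool.Agent.H13.MA.Sent
import Pool.Agent.H13.MA.Tmain
import Pool.Agent.H15.MA.BLK
import Pool.Agent.H15.MA.CLO
import Pool.Agent.H15.MA.COMB
import Pool.Agent.H15.MA.KEY
import Pool.Agent.H2.MA.SEQ
import Pool.Agent.H2.MA.URY
import Pool.Agent.H22.MA.SPC
import Pool.Agent.H23.MA.CHN
import Pool.Agent.H23.MA.MAXA
import Pool.Agent.H24.MA.BCX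
import Pool.Agent.H24.MA.DST
import Pool.Agent.H24.MA.NRM
import Pool.Agent.H28.MA.COV
import Pool.Agent.H31.MA.ARC
import Pool.Agent.H31.MA.DYA
import Pool.Agent.H31.MA.FNX
import Pool.Agent.H31.MA.WX
import Pool.Agent.H35.MA.ACF
import Pool.Agent.H35.MA.ACX
import Pool.Agent.H35.MA.LSZ
import Pool.Agent.H35.MA.ZFM
import Pool.Agent.H36.MA.ECL
import Pool.Agent.H36.MA.NIC
import Pool.Agent.H36.MA.W0
import Pool.Agent.H68.MA.FBF
import Pool.Agent.H68.MA.NB1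
import Pool.Agent.H68.MA.RSA
import Pool.Agent.H72.MA.MET
import Pool.Agent.H8.MA.BIG
import Pool.Agent.H8.MA.FRE
import Pool.Agent.H8.MA.NB3
import Pool.Agent.H8.MA.NBD
import Pool.Agent.H93.MA.CBA
import Pool.Agent.H93.MA.CBT
import Pool.Agent.H97.MA.BGF
import Pool.Agent.H97.MA.CTR
import Pool.Agent.H97.MA.MXE
import Pool.Agent.H98.MA.FCX
import Pool.Agent.H98.MA.HLX
import Pool.Agent.H98.MA.HSX
import Pool.Agent.H98.MA.TRC

/-!
Assembly of all modules: the consistency theorem.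
-/

set_option linter.unusedVariables false
set_option synthInstance.maxSize 100000

namespace SW

theorem t_acf : ACFStmt := ma_acf
theorem t_wo : WOStmt := ma_wo t_acf
theorem t_zorn : ZORNStmt := ma_zorn t_acf
theorem t_cba : CBAStmt := ma_cba
theorem t_cbt : CBTStmt := ma_cbt t_acf
theorem t_clo : CLOStmt := ma_clo t_cbt
theorem t_w0 : W0Stmt := ma_w0
theorem t_seq : SEQStmt := ma_seq t_acf t_cbt
theorem t_injw : INJWStmt := ma_injw t_seq t_cbt
theorem t_wf : WFStmt := ma_wf t_cbt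
theorem t_big : BIGStmt := ma_big t_acf
theorem t_bgf : BGFStmt := ma_bgf t_cba
theorem t_maxa : MAXAStmt := ma_maxa t_zorn
theorem t_ccp : CCPStmt := ma_ccp t_maxa t_cbt t_wf
theorem t_rsa : RSAStmt := ma_rsa
theorem t_del : DELStmt := ma_del t_seq t_cbt t_w0
theorem t_chn : CHNStmt := ma_chn t_del t_rsa t_cbt
theorem t_mxe : MXEStmt := ma_mxe t_big t_chn t_zorn t_cba
theorem t_nic : NICStmt := ma_nic t_acf t_maxa
theorem t_nbd : NBDStmt := ma_nbd t_bgf t_injw t_ccp t_rsa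
theorem t_ecl : ECLStmt := ma_ecl t_rsa
theorem t_acx : ACXStmt := ma_acx t_wo
theorem t_cov : COVStmt := ma_cov t_cbt t_acf
theorem t_wx : WXStmt := ma_wx t_cov t_cba
theorem t_fbf : FBFStmt := ma_fbf
theorem t_nb1 : NB1Stmt := ma_nb1 t_fbf t_wx t_wf t_rsa t_cba
theorem t_nb2 : NB2Stmt := ma_nb2 t_fbf t_wx t_wf t_ecl
theorem t_nb3 : NB3Stmt := ma_nb3 t_fbf t_nic t_nbd t_nb1 t_nb2
theorem t_fre : FREStmt := ma_fre t_acf t_seq t_wf t_cbt
theorem t_gmain : GMAINStmt := gmain t_mxe t_w0 t_acx t_wx t_nb3 t_fre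

theorem t_blk : BLKStmt := ma_blk t_del t_seq t_cbt t_wf t_acf
theorem t_key : KEYStmt := ma_key t_clo t_cbt t_wf t_acf
theorem t_comb : COMBStmt := ma_comb t_blk t_key
theorem t_ctr : CTRStmt := ma_ctr
theorem t_spc : SPCStmt := ma_spc t_acf t_cbt t_ctr
theorem t_hlx : HLXStmt := ma_hlx t_seq t_cbt t_wf
theorem t_trc : TRCStmt := ma_trc t_acf t_comb t_cbt
theorem t_hsx : HSXStmt := ma_hsx t_trc t_seq t_cbt
theorem t_fcx : FCXStmt := ma_fcx t_trc t_seq t_cbt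
theorem t_bcx : BCXStmt := ma_bcx t_hlx t_hsx t_fcx t_comb t_seq t_cbt t_acf
theorem t_tmain : TMAINStmt := tmain t_spc t_bcx t_ctr

theorem t_arc : ARCStmt := ma_arc
theorem t_nrm : NRMStmt := ma_nrm
theorem t_dya : DYAStmt := ma_dya t_acf
theorem t_dst : DSTStmt := ma_dst t_arc
theorem t_ury : URYStmt := ma_ury t_nrm t_dya t_arc
theorem t_met : METStmt := ma_met t_ury t_dst t_arc t_cbt t_acf
theorem t_mfin : MFINStmt := ma_mfin t_met t_ctr

theorem t_all :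
    (∀ (M : Type) [SetStr M] [ZFC M] [Countable M],
      ∃ (N : Type) (_ : SetStr N) (_ : ZFC N) (i : M → N), IsGenExt i ∧ MetrizationIn N) ∧
    (∀ (M : Type) [SetStr M] [ZFC M],
      ∃ (N : Type) (_ : SetStr N) (_ : ZFC N), MetrizationIn N) ∧
    ∃ (N : Type) (_ : SetStr N) (_ : ZFC N), Countable N ∧ MetrizationIn N :=
  masem t_gmain t_tmain ma_lsz ma_zfm t_mfin

end SW
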