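import Pool.Agent.H13.MA.Lib

/-!
Definitions for the forcing construction: countable sets, choice functions, systems of names of
graphs on the first uncountable ordinal, their poset.
-/

set_option linter.unusedVariables false
set_option synthInstance.maxSize 100000

namespace SW

section
variable {M : Type} [SetStr M] [ZF M]

/-! ### countable sets, choice functions, the first uncountable ordinal -/

/-- `x` is countable: some relation assigns natural numbers to all members of `x`, and no number
to two of them -/
def Cb (x : M) : Prop := ∃ f, (∀ y, E y x → ∃ n, E n om ∧ E (opair y n) f) ∧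
  ∀ y y' n, E y x → E y' x → E n om → E (opair y n) f → E (opair y' n) f → y = y'

theorem Cb_df : Cl (fun x : M => Cb x) := by unfold Cb; infer_instance

instance {n : ℕ} {t : (Fin n → M) → M} [ht : DfT t] : Df (fun v => Cb (t v)) :=
  Cb_df.comp1 ht

/-- `g` chooses elements of the nonempty subsets of `X` -/
def ChF (X g : M) : Prop := ∀ a, Sub a X → (∃ y, E y a) → E (app g a) a

theorem ChF_df : Cl2 (fun x g : M => ChF x g) := by unfold ChF; infer_instance

instance {n : ℕ} {t s : (Fin n → M) → M} [ht : DfT t] [hs : DfT s] :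
    Df (fun v => ChF (t v) (s v)) := ChF_df.comp2 ht hs

/-- `a` is covered by the values of a function on `z` -/
def Img (z a : M) : Prop := ∃ f, ∀ y, E y a → ∃ x, E x z ∧ y = app f x

theorem Img_df : Cl2 (fun z a : M => Img z a) := by unfold Img; infer_instance

instance {n : ℕ} {t s : (Fin n → M) → M} [ht : DfT t] [hs : DfT s] :
    Df (fun v => Img (t v) (s v)) := Img_df.comp2 ht hs

/-- `w` is the first uncountable ordinal -/
def IsW (w : M) : Prop := Ord w ∧ ¬ Cb w ∧ ∀ a, E a w → Cb a

theorem IsW_df : Cl (fun w : M => IsW w) := by unfold IsW; infer_instance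

instance {n : ℕ} {t : (Fin n → M) → M} [ht : DfT t] : Df (fun v => IsW (t v)) :=
  IsW_df.comp1 ht

/-! ### posets of sets ordered by reverse inclusion -/

/-- `p` and `q` have a common extension in `P` -/
def Cpt (P p q : M) : Prop := ∃ r, E r P ∧ Sub p r ∧ Sub q r

theorem Cpt_df : Cl3 (fun P p q : M => Cpt P p q) := by unfold Cpt; infer_instance

instance {n : ℕ} {t s u : (Fin n → M) → M} [ht : DfT t] [hs : DfT s] [hu : DfT u] :
    Df (fun v => Cpt (t v) (s v) (u v)) := Cpt_df.comp3 ht hs hu

/-- `a` is an antichain of `P` -/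
def Anti (P a : M) : Prop := Sub a P ∧ ∀ p q, E p a → E q a → p ≠ q → ¬ Cpt P p q

theorem Anti_df : Cl2 (fun P a : M => Anti P a) := by unfold Anti; infer_instance

instance {n : ℕ} {t s : (Fin n → M) → M} [ht : DfT t] [hs : DfT s] :
    Df (fun v => Anti (t v) (s v)) := Anti_df.comp2 ht hs

/-- all antichains of `P` are countable -/
def CCC (P : M) : Prop := ∀ a, Anti P a → Cb a

theorem CCC_df : Cl (fun P : M => CCC P) := by unfold CCC; infer_instance

instance {n : ℕ} {t : (Fin n → M) → M} [ht : DfT t] : Df (fun v => CCC (t v)) :=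
  CCC_df.comp1 ht

/-! ### systems of names of graphs

A name of a graph on `w` is a set `e` of triples `((x, y), q)`, where `q` is a finite set of pairs
(name, element of `w`). A condition over the system `I` of names is a finite set `p` of pairs
`(e, x)` such that for any two pairs `(e, x)`, `(e, y)` in `p` (also for `x = y`) there is `q ⊆ p`
with `((x, y), q) ∈ e`. -/

/-- the triple `((x, y), q)` is in `e` -/
def Tr (e x y q : M) : Prop := E (opair (opair x y) q) e

theorem Tr_df : Df (fun v : Fin 4 → M => Tr (v 0) (v 1) (v 2) (v 3)) := by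
  unfold Tr; infer_instance

instance {n : ℕ} {t s u x : (Fin n → M) → M} [ht : DfT t] [hs : DfT s] [hu : DfT u]
    [hx : DfT x] : Df (fun v => Tr (t v) (s v) (u v) (x v)) :=
  Tr_df.comp4 (R := fun a b c d => Tr a b c d) ht hs hu hx

/-- conditions over `I` -/
def Cond (w I p : M) : Prop := Fnt p ∧ Sub p (prod I w) ∧
  ∀ e x y, E (opair e x) p → E (opair e y) p → ∃ q, Sub q p ∧ Tr e x y q

theorem Cond_df : Cl3 (fun w I p : M => Cond w I p) := by unfold Cond; infer_instance

instance {n : ℕ} {t s u : (Fin n → M) → M} [ht : DfT t] [hs : DfT s] [hu : DfT u] :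
    Df (fun v => Cond (t v) (s v) (u v)) := Cond_df.comp3 ht hs hu

/-- the set of conditions over `I` -/
noncomputable def PP (w I : M) : M := sep (pow (prod I w)) (fun p => Cond w I p)

theorem PP_df : Fn2 (fun w I : M => PP w I) := by unfold PP; infer_instance

instance {n : ℕ} {t s : (Fin n → M) → M} [ht : DfT t] [hs : DfT s] :
    DfT (fun v => PP (t v) (s v)) := PP_df.comp2 ht hs

theorem mem_PP {w I p : M} : E p (PP w I) ↔ Cond w I p := by
  unfold PP
  rw [mem_sep, mem_pow]
  exact ⟨fun h => h.2, fun h => ⟨h.2.1, h⟩⟩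

/-- `I` is a system: its members are names over `I` -/
def Sys (w I : M) : Prop := ∀ e, E e I → ∀ t, E t e →
  ∃ x y q, E x w ∧ E y w ∧ Fnt q ∧ Sub q (prod I w) ∧ t = opair (opair x y) q

theorem Sys_df : Cl2 (fun w I : M => Sys w I) := by unfold Sys; infer_instance

instance {n : ℕ} {t s : (Fin n → M) → M} [ht : DfT t] [hs : DfT s] :
    Df (fun v => Sys (t v) (s v)) := Sys_df.comp2 ht hs

/-- the index set for small sets -/
noncomputable def ZZ (w : M) : M := prod (prod w w) om

instance {n : ℕ} {t : (Fin n → M) → M} [ht : DfT t] : DfT (fun v => ZZ (t v)) :=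
  DfT.comp1 (f := fun w => ZZ w) (by unfold ZZ; infer_instance) ht

/-- maximal ccc systems inside a set `H` which is closed under small subsets -/
structure Mx (w H I : M) : Prop where
  w1 : IsW w
  clo : ∀ a, Sub a H → Img (ZZ w) a → E a H
  sub : Sub I H
  sys : Sys w I
  ccc : CCC (PP w I)
  max : ∀ J, Sub J H → Sys w J → CCC (PP w J) → Sub I J → J = I

/-- the restriction of a condition to a system -/
noncomputable def rs (w J p : M) : M := inter p (prod J w)

theorem rs_df : DfT (fun v : Fin 3 → M => rs (v 0) (v 1) (v 2)) := by unfold rs; infer_instance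

instance {n : ℕ} {t s u : (Fin n → M) → M} [ht : DfT t] [hs : DfT s] [hu : DfT u] :
    DfT (fun v => rs (t v) (s v) (u v)) := rs_df.comp3 (f := fun a b c => rs a b c) ht hs hu

theorem mem_rs {w J p z : M} : E z (rs w J p) ↔ E z p ∧ E z (prod J w) := by
  unfold rs; rw [mem_inter]

/-- `e` is a nice name for the relation `D`: every triple `((x, y), q)` in `e` satisfies
`D x y q`, and the `q` with `((x, y), q) ∈ e` are predense in the set of conditions `q` with
`D x y q`; moreover `e` is small -/
def Nice (w I : M) (D : M → M → M → Prop) (e : M) : Prop :=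
  (∀ t, E t e → ∃ x y q, E x w ∧ E y w ∧ E q (PP w I) ∧ D x y q ∧ t = opair (opair x y) q) ∧
  (∀ x y q, E x w → E y w → E q (PP w I) → D x y q → ∃ q', Tr e x y q' ∧ Cpt (PP w I) q' q) ∧
  Img (ZZ w) e

/-- `V` lists pairwise incompatible conditions over `I ∪ {e}`, and below `q` (a condition over
`I`) the restrictions to `I` of uncountably many of them are met -/
def Bad (w I e q V : M) : Prop := E q (PP w I) ∧
  (∀ a, E a w → E (app V a) (PP w (ins e I))) ∧
  (∀ a b, E a w → E b w → a ≠ b → ¬ Cpt (PP w (ins e I)) (app V a) (app V b)) ∧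
  ∀ r, E r (PP w I) → Sub q r → ∀ b, E b w → ∃ a, E a w ∧ E b a ∧
    Cpt (PP w I) r (rs w I (app V a))

theorem Bad_df : Df (fun v : Fin 5 → M => Bad (v 0) (v 1) (v 2) (v 3) (v 4)) := by
  unfold Bad; infer_instance

end

/-! ### the poset as a notion of forcing -/

section
variable {M : Type} [SetStr M] [ZF M]

theorem Cond_emp (w I : M) : Cond w I emp :=
  ⟨finF.emp, fun z hz => absurd hz (not_mem_emp z), fun e x y h => absurd h (not_mem_emp _)⟩

/-- conditions over `I`, ordered by reverse inclusion -/
noncomputable def PF (w I : M) : FPoset M where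
  P := PP w I
  le := fun p q => Sub q p
  one := emp
  le_df := inferInstance
  one_mem := mem_PP.2 (Cond_emp w I)
  refl := fun p _ => Sub.refl p
  trans := fun p q r _ _ _ h1 h2 => Sub.trans h2 h1
  le_one := fun p _ z hz => absurd hz (not_mem_emp z)

end

end SW
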