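import Pool.Agent.H13.MA.Real

/-!
Statements of the modules, part M: metrizability of second countable regular spaces inside a
model of ZFC (Urysohn).
-/

set_option linter.unusedVariables false
set_option synthInstance.maxSize 100000

namespace SW

section
variable {M : Type} [SetStr M] [ZF M]

/-- `1/2` -/
noncomputable def RNum.hf (S : RNum M) : M := S.inv (S.add S.u S.u)

/-- `2 ^ (-n)` -/
noncomputable def RNum.hh (S : RNum M) (n : M) : M := orec S.u (fun r => S.mul S.hf r) n

instance (S : RNum M) {n : ℕ} {t : (Fin n → M) → M} [ht : DfT t] : DfT (fun v => S.hh (t v)) :=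
  DfT.comp1 (f := fun a => S.hh a) (by unfold RNum.hh; infer_instance) ht

/-- `s` has the least upper bound `c` -/
def RNum.IsSup (S : RNum M) (s c : M) : Prop := E c S.R ∧ (∀ a, E a s → S.le a c) ∧
  ∀ b, E b S.R → (∀ a, E a s → S.le a b) → S.le c b

/-- `s` has the greatest lower bound `c` -/
def RNum.IsInf (S : RNum M) (s c : M) : Prop := E c S.R ∧ (∀ a, E a s → S.le c a) ∧
  ∀ b, E b S.R → (∀ a, E a s → S.le b a) → S.le b c

instance (S : RNum M) {n : ℕ} {t s : (Fin n → M) → M} [ht : DfT t] [hs : DfT s] :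
    Df (fun v => S.IsSup (t v) (s v)) :=
  Df.comp2 (R := fun a b => S.IsSup a b) (by unfold RNum.IsSup; infer_instance) ht hs

instance (S : RNum M) {n : ℕ} {t s : (Fin n → M) → M} [ht : DfT t] [hs : DfT s] :
    Df (fun v => S.IsInf (t v) (s v)) :=
  Df.comp2 (R := fun a b => S.IsInf a b) (by unfold RNum.IsInf; infer_instance) ht hs

/-- `|a - b| < e` -/
def RNum.near (S : RNum M) (a b e : M) : Prop := S.lt a (S.add b e) ∧ S.lt b (S.add a e)

instance (S : RNum M) {n : ℕ} {t s u : (Fin n → M) → M} [ht : DfT t] [hs : DfT s]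
    [hu : DfT u] : Df (fun v => S.near (t v) (s v) (u v)) :=
  Df.comp3 (R := fun a b c => S.near a b c) (by unfold RNum.near; infer_instance) ht hs hu

end

/-- facts about the halves and suprema -/
structure HFacts {M : Type} [SetStr M] [ZF M] (S : RNum M) : Prop where
  mem : ∀ {n}, E n om → E (S.hh n) S.R
  zero : S.hh emp = S.u
  suc : ∀ {n}, E n om → S.add (S.hh (suc n)) (S.hh (suc n)) = S.hh n
  pos : ∀ {n}, E n om → S.lt S.z (S.hh n)
  anti : ∀ {m n}, E m om → E n om → Sub m n → S.le (S.hh n) (S.hh m)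
  small : ∀ {r}, E r S.R → S.lt S.z r → ∃ n, E n om ∧ S.lt (S.hh n) r
  sup : ∀ {s b}, Sub s S.R → (∃ a, E a s) → E b S.R → (∀ a, E a s → S.le a b) → ∃ c, S.IsSup s c
  inf : ∀ {s b}, Sub s S.R → (∃ a, E a s) → E b S.R → (∀ a, E a s → S.le b a) → ∃ c, S.IsInf s c

/-- ARC -/
def ARCStmt : Prop := ∀ (M : Type) [SetStr M] [ZF M] (S : RNum M), HFacts S

/-- DYA: a family indexed by a dense set of numbers in `[0, 1]`, increasing for a relation with
the interpolation property -/
def DYAStmt : Prop := ∀ (M : Type) [SetStr M] [ZFC M] (S : RNum M) (T U0 U1 : M)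
  (Q : M → M → Prop), Cl2 Q → (∀ U V W, Q U V → Q V W → Q U W) →
  (∀ U V, E U T → E V T → Q U V → ∃ W, E W T ∧ Q U W ∧ Q W V) →
  E U0 T → E U1 T → Q U0 U1 →
  ∃ D, (∀ p, E p D → ∃ r U, E r S.R ∧ S.le S.z r ∧ S.le r S.u ∧ E U T ∧ p = opair r U) ∧
    E (opair S.z U0) D ∧ E (opair S.u U1) D ∧
    (∀ r U r' U', E (opair r U) D → E (opair r' U') D → S.lt r r' → Q U U') ∧
    ∀ s t, E s S.R → E t S.R → S.le S.z s → S.lt s t → S.le t S.u →
      ∃ r U, E (opair r U) D ∧ S.lt s r ∧ S.lt r t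

/-- a regular `T₁` space with a countable base -/
structure SpC {M : Type} [SetStr M] [ZF M] (X T B : M) : Prop where
  sub : ∀ {U}, E U T → Sub U X
  top : E X T
  uni : ∀ {c}, Sub c T → E (sUn c) T
  int : ∀ {U V}, E U T → E V T → E (inter U V) T
  reg : ∀ {U x}, E U T → E x U → ∃ V, E V T ∧ E x V ∧ ∀ y, E y X → Clo T V y → E y U
  t1 : ∀ {x y}, E x X → E y X → x ≠ y → ∃ U, E U T ∧ E x U ∧ ¬ E y U
  bT : Sub B T
  bas : ∀ {U x}, E U T → E x U → ∃ V, E V B ∧ E x V ∧ Sub V U
  cB : Cb B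

/-- the closure of `A` is contained in `U` -/
def CIn {M : Type} [SetStr M] [ZF M] (X T A U : M) : Prop := ∀ y, E y X → Clo T A y → E y U

theorem CIn_df {M : Type} [SetStr M] [ZF M] :
    Df (fun v : Fin 4 → M => CIn (v 0) (v 1) (v 2) (v 3)) := by
  unfold CIn; infer_instance

instance {M : Type} [SetStr M] [ZF M] {n : ℕ} {t s u x : (Fin n → M) → M} [ht : DfT t]
    [hs : DfT s] [hu : DfT u] [hx : DfT x] : Df (fun v => CIn (t v) (s v) (u v) (x v)) :=
  CIn_df.comp4 (R := fun a b c d => CIn a b c d) ht hs hu hx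

/-- NRM: normality -/
def NRMStmt : Prop := ∀ (M : Type) [SetStr M] [ZFC M] (X T B : M), SpC X T B →
  ∀ A U, Sub A X → E U T → CIn X T A U → ∃ V, E V T ∧ CIn X T A V ∧ CIn X T V U

/-- URY: Urysohn functions -/
def URYStmt : Prop := ∀ (M : Type) [SetStr M] [ZFC M] (S : RNum M) (X T B : M), SpC X T B →
  ∀ U0 U1, E U0 T → E U1 T → CIn X T U0 U1 →
  ∃ f, Sub f (prod X S.R) ∧
    (∀ x, E x X → E (app f x) S.R ∧ S.le S.z (app f x) ∧ S.le (app f x) S.u) ∧
    (∀ x, E x U0 → app f x = S.z) ∧ (∀ x, E x X → ¬ E x U1 → app f x = S.u) ∧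
    ∀ x e, E x X → E e S.R → S.lt S.z e → ∃ W, E W T ∧ E x W ∧
      ∀ y, E y W → S.near (app f x) (app f y) e

/-- DST: the distance: `d x y` is the supremum of the numbers `min (2 ^ (-k)) |f x - f y|` for
`(k, f)` in a set `K` of pairs; it is a pseudometric which is small when finitely many
differences are small, and `d x y < 2 ^ (-k)` gives `|f x - f y| < 2 ^ (-k)` -/
def DSTStmt : Prop := ∀ (M : Type) [SetStr M] [ZFC M] (S : RNum M) (X K : M),
  (∀ p, E p K → ∃ k f, E k om ∧ p = opair k f ∧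
    ∀ x, E x X → E (app f x) S.R ∧ S.le S.z (app f x) ∧ S.le (app f x) S.u) →
  (∀ k f f', E (opair k f) K → E (opair k f') K → f = f') →
  ∃ d : M, (∀ x y, E x X → E y X → E (app d (opair x y)) S.R ∧ S.le S.z (app d (opair x y))) ∧
    (∀ x, E x X → app d (opair x x) = S.z) ∧
    (∀ x y, E x X → E y X → app d (opair x y) = app d (opair y x)) ∧
    (∀ x y v, E x X → E y X → E v X →
      S.le (app d (opair x v)) (S.add (app d (opair x y)) (app d (opair y v)))) ∧
    (∀ n, E n om → ∀ x y, E x X → E y X →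
      (∀ k f, E k n → E (opair k f) K → S.near (app f x) (app f y) (S.hh n)) →
      S.le (app d (opair x y)) (S.hh n)) ∧
    (∀ x y k f, E x X → E y X → E (opair k f) K → S.lt (app d (opair x y)) (S.hh k) →
      S.near (app f x) (app f y) (S.hh k))

/-- MET: regular second countable spaces are metrizable -/
def METStmt : Prop := ∀ (M : Type) [SetStr M] [ZFC M] (X T B : M), SpC X T B →
  IsMetrizableSpace X T

/-- MFIN: the form used in the final theorem -/
def MFINStmt : Prop := ∀ (M : Type) [SetStr M] [ZFC M] (X T B : M), IsTopology X T →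
  IsRegularSpace X T → IsBaseOf T B → IsCountable B → IsMetrizableSpace X T

end SW
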