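import Pool.Agent.H13.MA.TStmts
import Mathlib.Algebra.Field.MinimalAxioms
import Mathlib.Algebra.Order.Field.Basic
import Mathlib.Algebra.Order.Ring.Defs

/-!
The real numbers of a model: a copy of the real numbers in the sense of `IsRealNumbers`, as a
linearly ordered field in Lean.
-/

set_option linter.unusedVariables false
set_option synthInstance.maxSize 100000

namespace SW

variable {M : Type} [SetStr M] [ZF M]

theorem trp_iff {a b c P : M} : Trp a b c P ↔ E (opair (opair a b) c) P := by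
  unfold Trp
  constructor
  · rintro ⟨p, hp, h⟩
    rw [isOP_iff] at hp
    subst hp
    exact pairIn_iff.1 h
  · intro h
    exact ⟨_, isOP_iff.2 rfl, pairIn_iff.2 h⟩

/-- a copy of the real numbers in `M` -/
structure RNum (M : Type) [SetStr M] [ZF M] where
  /-- the carrier -/
  R : M
  /-- addition -/
  P : M
  /-- multiplication -/
  Q : M
  /-- order -/
  L : M
  /-- zero -/
  z : M
  /-- one -/
  u : M
  ax : IsRealNumbers R P Q L z u

namespace RNum

variable (S : RNum M)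

/-- sum -/
noncomputable def add (a b : M) : M := app S.P (opair a b)

/-- product -/
noncomputable def mul (a b : M) : M := app S.Q (opair a b)

/-- the order -/
def le (a b : M) : Prop := E (opair a b) S.L

instance {n : ℕ} {t s : (Fin n → M) → M} [ht : DfT t] [hs : DfT s] :
    DfT (fun v => S.add (t v) (s v)) :=
  DfT.comp2 (f := fun a b => S.add a b) (by unfold add; infer_instance) ht hs

instance {n : ℕ} {t s : (Fin n → M) → M} [ht : DfT t] [hs : DfT s] :
    DfT (fun v => S.mul (t v) (s v)) :=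
  DfT.comp2 (f := fun a b => S.mul a b) (by unfold mul; infer_instance) ht hs

instance {n : ℕ} {t s : (Fin n → M) → M} [ht : DfT t] [hs : DfT s] :
    Df (fun v => S.le (t v) (s v)) :=
  Df.comp2 (R := fun a b => S.le a b) (by unfold le; infer_instance) ht hs

/-- the negative -/
noncomputable def neg (a : M) : M := the (fun b => E b S.R ∧ S.add a b = S.z)

/-- the inverse -/
noncomputable def inv (a : M) : M :=
  the (fun b => E b S.R ∧ ((a ≠ S.z ∧ S.mul a b = S.u) ∨ (a = S.z ∧ b = S.z)))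

instance {n : ℕ} {t : (Fin n → M) → M} [ht : DfT t] : DfT (fun v => S.neg (t v)) :=
  DfT.comp1 (f := fun a => S.neg a) (by unfold neg; infer_instance) ht

instance {n : ℕ} {t : (Fin n → M) → M} [ht : DfT t] : DfT (fun v => S.inv (t v)) :=
  DfT.comp1 (f := fun a => S.inv a) (by unfold inv; infer_instance) ht

theorem op_spec {R P : M} (h : IsOperation R P) {a b : M} (ha : E a R) (hb : E b R) :
    E (app P (opair a b)) R ∧ ∀ c, Trp a b c P ↔ c = app P (opair a b) := by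
  obtain ⟨c, hc, h1⟩ := h.1 a b ha hb
  have h2 : app P (opair a b) = c := by
    refine the_eq (trp_iff.1 h1) fun y hy => ?_
    exact (h.2 a b y c ha hb (trp_iff.2 hy) h1)
  refine ⟨by rw [h2]; exact hc, fun c' => ?_⟩
  rw [h2]
  constructor
  · intro h3
    exact h.2 a b c' c ha hb h3 h1
  · rintro rfl
    exact h1

theorem add_mem {a b : M} (ha : E a S.R) (hb : E b S.R) : E (S.add a b) S.R :=
  (op_spec S.ax.add_op ha hb).1

theorem mul_mem {a b : M} (ha : E a S.R) (hb : E b S.R) : E (S.mul a b) S.R :=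
  (op_spec S.ax.mul_op ha hb).1

theorem trp_add {a b c : M} (ha : E a S.R) (hb : E b S.R) : Trp a b c S.P ↔ c = S.add a b :=
  (op_spec S.ax.add_op ha hb).2 c

theorem trp_mul {a b c : M} (ha : E a S.R) (hb : E b S.R) : Trp a b c S.Q ↔ c = S.mul a b :=
  (op_spec S.ax.mul_op ha hb).2 c

theorem add_comm' {a b : M} (ha : E a S.R) (hb : E b S.R) : S.add a b = S.add b a :=
  (S.trp_add hb ha).1 (S.ax.add_comm a b _ ha hb ((S.trp_add ha hb).2 rfl))

theorem add_assoc' {a b c : M} (ha : E a S.R) (hb : E b S.R) (hc : E c S.R) :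
    S.add (S.add a b) c = S.add a (S.add b c) :=
  (S.trp_add ha (S.add_mem hb hc)).1 (S.ax.add_assoc a b c _ _ _ ha hb hc
    ((S.trp_add ha hb).2 rfl) ((S.trp_add (S.add_mem ha hb) hc).2 rfl) ((S.trp_add hb hc).2 rfl))

theorem zero_add' {a : M} (ha : E a S.R) : S.add S.z a = a :=
  ((S.trp_add S.ax.zero_mem ha).1 (S.ax.zero_add a ha)).symm

theorem mul_comm' {a b : M} (ha : E a S.R) (hb : E b S.R) : S.mul a b = S.mul b a :=
  (S.trp_mul hb ha).1 (S.ax.mul_comm a b _ ha hb ((S.trp_mul ha hb).2 rfl))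

theorem mul_assoc' {a b c : M} (ha : E a S.R) (hb : E b S.R) (hc : E c S.R) :
    S.mul (S.mul a b) c = S.mul a (S.mul b c) :=
  (S.trp_mul ha (S.mul_mem hb hc)).1 (S.ax.mul_assoc a b c _ _ _ ha hb hc
    ((S.trp_mul ha hb).2 rfl) ((S.trp_mul (S.mul_mem ha hb) hc).2 rfl) ((S.trp_mul hb hc).2 rfl))

theorem one_mul' {a : M} (ha : E a S.R) : S.mul S.u a = a :=
  ((S.trp_mul S.ax.one_mem ha).1 (S.ax.one_mul a ha)).symm

theorem distrib' {a b c : M} (ha : E a S.R) (hb : E b S.R) (hc : E c S.R) :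
    S.mul a (S.add b c) = S.add (S.mul a b) (S.mul a c) :=
  (S.trp_add (S.mul_mem ha hb) (S.mul_mem ha hc)).1 (S.ax.distrib a b c _ _ _ _ ha hb hc
    ((S.trp_add hb hc).2 rfl) ((S.trp_mul ha (S.add_mem hb hc)).2 rfl) ((S.trp_mul ha hb).2 rfl)
    ((S.trp_mul ha hc).2 rfl))

theorem neg_spec {a : M} (ha : E a S.R) : E (S.neg a) S.R ∧ S.add a (S.neg a) = S.z := by
  unfold neg
  refine the_spec (p := fun b => E b S.R ∧ S.add a b = S.z) ?_
  obtain ⟨b, hb, h⟩ := S.ax.neg a ha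
  rw [S.trp_add ha hb] at h
  refine ⟨b, ⟨hb, h.symm⟩, fun c hc => ?_⟩
  obtain ⟨hc, h'⟩ := hc
  have h1 : S.add b (S.add a c) = b := by
    rw [h', S.add_comm' hb S.ax.zero_mem, S.zero_add' hb]
  rw [← S.add_assoc' hb ha hc, S.add_comm' hb ha, ← h, S.zero_add' hc] at h1
  exact h1

theorem inv_spec {a : M} (ha : E a S.R) : E (S.inv a) S.R ∧
    ((a ≠ S.z ∧ S.mul a (S.inv a) = S.u) ∨ (a = S.z ∧ S.inv a = S.z)) := by
  unfold inv
  refine the_spec (p := fun b => E b S.R ∧ ((a ≠ S.z ∧ S.mul a b = S.u) ∨ (a = S.z ∧ b = S.z))) ?_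
  by_cases h0 : a = S.z
  · refine ⟨S.z, ⟨S.ax.zero_mem, Or.inr ⟨h0, rfl⟩⟩, fun c hc => ?_⟩
    rcases hc.2 with h | h
    · exact absurd h0 h.1
    · exact h.2
  · obtain ⟨b, hb, h⟩ := S.ax.inv a ha h0
    rw [S.trp_mul ha hb] at h
    refine ⟨b, ⟨hb, Or.inl ⟨h0, h.symm⟩⟩, fun c hc => ?_⟩
    obtain ⟨hc, h'⟩ := hc
    rcases h' with ⟨_, h'⟩ | ⟨h', _⟩
    swap
    · exact absurd h' h0
    have h1 : S.mul b (S.mul a c) = b := by
      rw [h', S.mul_comm' hb S.ax.one_mem, S.one_mul' hb]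
    rw [← S.mul_assoc' hb ha hc, S.mul_comm' hb ha, ← h, S.one_mul' hc] at h1
    exact h1

theorem neg_mem {a : M} (ha : E a S.R) : E (S.neg a) S.R := (S.neg_spec ha).1

theorem inv_mem {a : M} (ha : E a S.R) : E (S.inv a) S.R := (S.inv_spec ha).1

/-! ### the field as a type -/

/-- the type of the real numbers of `M` -/
def T : Type := {a : M // E a S.R}

noncomputable instance : Add S.T := ⟨fun a b => ⟨S.add a.1 b.1, S.add_mem a.2 b.2⟩⟩
noncomputable instance : Mul S.T := ⟨fun a b => ⟨S.mul a.1 b.1, S.mul_mem a.2 b.2⟩⟩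
noncomputable instance : Neg S.T := ⟨fun a => ⟨S.neg a.1, S.neg_mem a.2⟩⟩
noncomputable instance : Inv S.T := ⟨fun a => ⟨S.inv a.1, S.inv_mem a.2⟩⟩
noncomputable instance : Zero S.T := ⟨⟨S.z, S.ax.zero_mem⟩⟩
noncomputable instance : One S.T := ⟨⟨S.u, S.ax.one_mem⟩⟩

noncomputable instance : Field S.T := Field.ofMinimalAxioms S.T
  (fun a b c => Subtype.ext (S.add_assoc' a.2 b.2 c.2))
  (fun a => Subtype.ext (S.zero_add' a.2))
  (fun a => Subtype.ext ((S.add_comm' (S.neg_mem a.2) a.2).trans (S.neg_spec a.2).2))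
  (fun a b c => Subtype.ext (S.mul_assoc' a.2 b.2 c.2))
  (fun a b => Subtype.ext (S.mul_comm' a.2 b.2))
  (fun a => Subtype.ext (S.one_mul' a.2))
  (fun a ha => Subtype.ext (by
    rcases (S.inv_spec a.2).2 with h | h
    · exact h.2
    · exact absurd (Subtype.ext h.1) ha))
  (Subtype.ext (by
    rcases (S.inv_spec (a := S.z) S.ax.zero_mem).2 with h | h
    · exact absurd rfl h.1
    · exact h.2))
  (fun a b c => Subtype.ext (S.distrib' a.2 b.2 c.2))
  ⟨⟨S.z, S.ax.zero_mem⟩, ⟨S.u, S.ax.one_mem⟩, fun h => S.ax.ne (congrArg Subtype.val h)⟩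

noncomputable instance : LinearOrder S.T where
  le a b := S.le a.1 b.1
  le_refl a := pairIn_iff.1 (S.ax.le_refl a.1 a.2)
  le_trans a b c h1 h2 := pairIn_iff.1 (S.ax.le_trans a.1 b.1 c.1 a.2 b.2 c.2
    (pairIn_iff.2 h1) (pairIn_iff.2 h2))
  le_antisymm a b h1 h2 := Subtype.ext (S.ax.le_antisymm a.1 b.1 a.2 b.2
    (pairIn_iff.2 h1) (pairIn_iff.2 h2))
  le_total a b := (S.ax.le_total a.1 b.1 a.2 b.2).imp pairIn_iff.1 pairIn_iff.1
  toDecidableLE := Classical.decRel _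

@[simp] theorem coe_add (a b : S.T) : (a + b).1 = S.add a.1 b.1 := rfl
@[simp] theorem coe_mul (a b : S.T) : (a * b).1 = S.mul a.1 b.1 := rfl
@[simp] theorem coe_neg (a : S.T) : (-a).1 = S.neg a.1 := rfl
@[simp] theorem coe_inv (a : S.T) : (a⁻¹).1 = S.inv a.1 := rfl
@[simp] theorem coe_zero : (0 : S.T).1 = S.z := rfl
@[simp] theorem coe_one : (1 : S.T).1 = S.u := rfl
theorem coe_le {a b : S.T} : a ≤ b ↔ S.le a.1 b.1 := Iff.rfl

instance : IsOrderedAddMonoid S.T where
  add_le_add_left a b h c := by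
    have h0 : E (opair a.1 b.1) S.L := h
    have h1 := S.ax.add_le a.1 b.1 c.1 _ _ a.2 b.2 c.2 (pairIn_iff.2 h0)
      ((S.trp_add a.2 c.2).2 rfl) ((S.trp_add b.2 c.2).2 rfl)
    exact (pairIn_iff.1 h1 : E (opair (S.add a.1 c.1) (S.add b.1 c.1)) S.L)

theorem mul_nonneg' (a b : S.T) (ha : 0 ≤ a) (hb : 0 ≤ b) : 0 ≤ a * b := by
  have ha' : E (opair S.z a.1) S.L := ha
  have hb' : E (opair S.z b.1) S.L := hb
  exact (pairIn_iff.1 (S.ax.mul_nonneg a.1 b.1 _ a.2 b.2 (pairIn_iff.2 ha') (pairIn_iff.2 hb')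
    ((S.trp_mul a.2 b.2).2 rfl)) : E (opair S.z (S.mul a.1 b.1)) S.L)

instance : ZeroLEOneClass S.T where
  zero_le_one := by
    rcases le_total (0 : S.T) 1 with h | h
    · exact h
    · have h1 : (0 : S.T) ≤ -1 := neg_nonneg.2 h
      have h2 := S.mul_nonneg' (-1) (-1) h1 h1
      rwa [neg_mul_neg, one_mul] at h2

instance : IsStrictOrderedRing S.T := IsStrictOrderedRing.of_mul_pos fun a b ha hb => by
  refine lt_of_le_of_ne (S.mul_nonneg' a b ha.le hb.le) fun h => ?_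
  rcases mul_eq_zero.1 h.symm with h1 | h1
  · exact ha.ne' h1
  · exact hb.ne' h1

/-- the order, as a relation of `M` -/
def lt (a b : M) : Prop := S.le a b ∧ a ≠ b

instance {n : ℕ} {t s : (Fin n → M) → M} [ht : DfT t] [hs : DfT s] :
    Df (fun v => S.lt (t v) (s v)) :=
  Df.comp2 (R := fun a b => S.lt a b) (by unfold lt; infer_instance) ht hs

theorem coe_lt {a b : S.T} : a < b ↔ S.lt a.1 b.1 := by
  rw [lt_iff_le_and_ne, coe_le]
  exact and_congr_right fun _ => ⟨fun h h' => h (Subtype.ext h'), fun h h' => h (by rw [h'])⟩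

/-- completeness -/
theorem exists_sup {s : M} (hs : Sub s S.R) (hne : ∃ a, E a s) {b : M} (hb : E b S.R)
    (h : ∀ a, E a s → S.le a b) :
    ∃ c, E c S.R ∧ (∀ a, E a s → S.le a c) ∧ ∀ b, E b S.R → (∀ a, E a s → S.le a b) →
      S.le c b := by
  obtain ⟨c, hc, h1, h2⟩ := S.ax.sup s hs hne ⟨b, hb, fun a ha => pairIn_iff.2 (h a ha)⟩
  exact ⟨c, hc, fun a ha => pairIn_iff.1 (h1 a ha), fun b hb hb' =>
    pairIn_iff.1 (h2 b hb fun a ha => pairIn_iff.2 (hb' a ha))⟩

end RNum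

end SW
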