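import Pool.Agent.H13.MA.Defs

/-!
Statements of the modules, parts S (set theory in models of ZFC), P (systems of names) and
G (the generic extension).
-/

set_option linter.unusedVariables false
set_option synthInstance.maxSize 100000

namespace SW

/-! ## Part S: set theory in a model of ZFC -/

/-- ACF: choice functions -/
def ACFStmt : Prop := ∀ (M : Type) [SetStr M] [ZFC M] (X : M), ∃ g, ChF X g

/-- ZORN -/
def ZORNStmt : Prop := ∀ (M : Type) [SetStr M] [ZFC M] (S : M), (∃ x, E x S) →
  (∀ c, Sub c S → (∃ x, E x c) → (∀ x y, E x c → E y c → Sub x y ∨ Sub y x) →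
    ∃ u, E u S ∧ ∀ x, E x c → Sub x u) →
  ∃ m, E m S ∧ ∀ x, E x S → Sub m x → x = m

/-- WO: every set is covered by the values of a function on an ordinal -/
def WOStmt : Prop := ∀ (M : Type) [SetStr M] [ZFC M] (X : M), ∃ a f, Ord a ∧
  ∀ y, E y X → ∃ b, E b a ∧ y = app f b

/-- simple facts about countable sets, without choice -/
structure CbA (M : Type) [SetStr M] [ZF M] : Prop where
  sub : ∀ {x y : M}, Cb x → Sub y x → Cb y
  fin : ∀ {x : M}, Fnt x → Cb x
  om : Cb (om : M)
  /-- images of countable sets under class functions -/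
  img : ∀ {x : M} (f : M → M), Fn1 f → Cb x → Cb (img x f)
  /-- a set which is mapped injectively to a countable set -/
  inj : ∀ {x y : M} (f : M → M), Fn1 f → Cb y → (∀ z, E z x → E (f z) y) →
    (∀ z z', E z x → E z' x → f z = f z' → z = z') → Cb x
  bun : ∀ {x y : M}, Cb x → Cb y → Cb (bun x y)

/-- CBA -/
def CBAStmt : Prop := ∀ (M : Type) [SetStr M] [ZF M], CbA M

/-- CBP: the set of pairs of natural numbers is countable -/
def CBPStmt : Prop := ∀ (M : Type) [SetStr M] [ZF M], Cb (prod om om : M)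

/-- facts about countable sets -/
structure CbFacts (M : Type) [SetStr M] [ZF M] : Prop extends CbA M where
  prod : ∀ {x y : M}, Cb x → Cb y → Cb (prod x y)
  /-- countable unions -/
  sUn : ∀ {x : M}, Cb x → (∀ y, E y x → Cb y) → Cb (sUn x)
  /-- countable unions, indexed -/
  iUn : ∀ {x : M} (f : M → M), Fn1 f → Cb x → (∀ y, E y x → Cb (f y)) →
    Cb (SW.sUn (SW.img x f))
  /-- the set of finite subsets of a countable set -/
  fsub : ∀ {x : M}, Cb x → Cb (sep (pow x) (fun y => Fnt y))

/-- CBT -/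
def CBTStmt : Prop := ∀ (M : Type) [SetStr M] [ZFC M], CbFacts M

/-- CLO: closing off under countably many values -/
def CLOStmt : Prop := ∀ (M : Type) [SetStr M] [ZFC M] (X c0 : M) (f : M → M), Fn1 f →
  Sub c0 X → Cb c0 → (∀ x, E x X → Sub (f x) X ∧ Cb (f x)) →
  ∃ C, Sub c0 C ∧ Sub C X ∧ Cb C ∧ ∀ x, E x C → Sub (f x) C

/-- W0: the first uncountable ordinal exists -/
def W0Stmt : Prop := ∀ (M : Type) [SetStr M] [ZFC M], ∃ w : M, IsW w

/-- facts about the first uncountable ordinal -/
structure WFacts {M : Type} [SetStr M] [ZF M] (w : M) : Prop where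
  ord : ∀ {a : M}, E a w → Ord a
  suc : ∀ {a : M}, E a w → E (suc a) w
  om : Sub om w
  bdd : ∀ {s : M}, Sub s w → Cb s → ∃ b, E b w ∧ ∀ a, E a s → E a b
  unb : ∀ {s : M}, Sub s w → ¬ Cb s → ∀ b, E b w → ∃ a, E a s ∧ E b a
  /-- unbounded sets are uncountable -/
  unc : ∀ {s : M}, Sub s w → (∀ b, E b w → ∃ a, E a s ∧ E b a) → ¬ Cb s

/-- WF -/
def WFStmt : Prop := ∀ (M : Type) [SetStr M] [ZFC M] (w : M), IsW w → WFacts w

/-- SEQ: transfinite choice -/
def SEQStmt : Prop := ∀ (M : Type) [SetStr M] [ZFC M] (w X : M) (P : M → M → Prop), IsW w → Cl2 P →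
  (∀ c, Sub c X → Cb c → ∃ b, E b X ∧ P c b) →
  ∃ V, ∀ a, E a w → E (app V a) X ∧ P (img a (fun b => app V b)) (app V a)

/-- INJW: an uncountable set contains a family of distinct elements indexed by `w` -/
def INJWStmt : Prop := ∀ (M : Type) [SetStr M] [ZFC M] (w X : M), IsW w → ¬ Cb X →
  ∃ V, (∀ a, E a w → E (app V a) X) ∧
    ∀ a b, E a w → E b w → a ≠ b → app V a ≠ app V b

/-- DEL: the delta system lemma -/
def DELStmt : Prop := ∀ (M : Type) [SetStr M] [ZFC M] (A : M) (s : M → M), Fn1 s → ¬ Cb A →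
  (∀ p, E p A → Fnt (s p)) →
  ∃ A' r, Sub A' A ∧ ¬ Cb A' ∧ Fnt r ∧ (∀ p, E p A' → Sub r (s p)) ∧
    ∀ p q, E p A' → E q A' → p ≠ q → ∀ x, E x (s p) → E x (s q) → E x r

/-- BIG: a set closed under small subsets, above a given set -/
def BIGStmt : Prop := ∀ (M : Type) [SetStr M] [ZFC M] (z : M), (∃ x, E x z) →
  ∃ H, ∀ a, Sub a H → Img z a → E a H

/-- closure properties of such a set -/
structure BigFacts {M : Type} [SetStr M] [ZF M] (w H : M) : Prop where
  fnt : ∀ {a : M}, Fnt a → Sub a H → E a H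
  opair : ∀ {a b : M}, E a H → E b H → E (opair a b) H
  sub : Sub w H
  /-- small sets of triples `((x, y), q)` -/
  name : ∀ {I e : M}, Sub I H → (∀ t, E t e → ∃ x y q, E x w ∧ E y w ∧ E q (PP w I) ∧
    t = SW.opair (SW.opair x y) q) → Img (ZZ w) e → E e H

/-- BGF -/
def BGFStmt : Prop := ∀ (M : Type) [SetStr M] [ZFC M] (w H : M), IsW w →
  (∀ a, Sub a H → Img (ZZ w) a → E a H) → BigFacts w H

/-- MAXA: maximal antichains inside a subset `D` of a poset `P` -/
def MAXAStmt : Prop := ∀ (M : Type) [SetStr M] [ZFC M] (P D : M), Sub D P →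
  ∃ a, Sub a D ∧ Anti P a ∧ ∀ d, E d D → ∃ q, E q a ∧ Cpt P q d

/-- CCP: in a ccc poset some condition meets uncountably many members of every family indexed
by `w`, even below each of its extensions -/
def CCPStmt : Prop := ∀ (M : Type) [SetStr M] [ZFC M] (w P V : M), IsW w → CCC P →
  (∀ a, E a w → E (app V a) P) →
  ∃ p, E p P ∧ ∀ q, E q P → Sub p q → ∀ b, E b w → ∃ a, E a w ∧ E b a ∧ Cpt P q (app V a)

/-! ## Part P: systems of names -/

/-- RSA: restriction and amalgamation of conditions -/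
structure RsFacts {M : Type} [SetStr M] [ZF M] (w : M) : Prop where
  mono : ∀ {I J p : M}, Sub J I → E p (PP w J) → E p (PP w I)
  rs : ∀ {I J p : M}, Sys w J → E p (PP w I) → E (rs w J p) (PP w J)
  ama : ∀ {I J p p' s : M}, Sys w J → Sub J I → E p (PP w I) → E p' (PP w I) → E s (PP w J) →
    Sub (SW.rs w J p) s → Sub (SW.rs w J p') s →
    (∀ e x y, E (opair e x) p → E (opair e y) p' → E e J) → E (bun (bun p p') s) (PP w I)
  /-- adding a finite set `{e} × f` at a new index `e` -/
  add : ∀ {I e s f : M}, Sys w I → ¬ E e I → E s (PP w I) → Fnt f → Sub f w →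
    (∀ x y, E x f → E y f → ∃ q, Sub q s ∧ Tr e x y q) →
    E (bun s (prod (sing e) f)) (PP w (ins e I))

/-- RSA -/
def RSAStmt : Prop := ∀ (M : Type) [SetStr M] [ZF M] (w : M), RsFacts w

/-- CHN: unions of chains of ccc systems are ccc -/
def CHNStmt : Prop := ∀ (M : Type) [SetStr M] [ZFC M] (w c : M), IsW w → (∃ J, E J c) →
  (∀ J, E J c → Sys w J ∧ CCC (PP w J)) → (∀ J J', E J c → E J' c → Sub J J' ∨ Sub J' J) →
  Sys w (sUn c) ∧ CCC (PP w (sUn c))

/-- MXE: maximal systems exist -/
def MXEStmt : Prop := ∀ (M : Type) [SetStr M] [ZFC M] (w : M), IsW w → ∃ H I, Mx w H I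

/-- NIC: nice names exist -/
def NICStmt : Prop := ∀ (M : Type) [SetStr M] [ZFC M] (w I : M) (D : M → M → M → Prop),
  IsW w → CCC (PP w I) → Cl3 D → ∃ e, Nice w I D e

/-- NBD: if a nice name for `D` (restricted to conditions above `p`, everything being allowed
for conditions incompatible with `p`) does not give a ccc extension of the system, then this
is witnessed above `p` -/
def NBDStmt : Prop := ∀ (M : Type) [SetStr M] [ZFC M] (w H I p e : M) (B : M → M → M → Prop),
  Mx w H I → E p (PP w I) → Cl3 B →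
  (∀ x y q q', B x y q → E q' (PP w I) → Sub q q' → B x y q') →
  Nice w I (fun x y q => ¬ Cpt (PP w I) q p ∨ (Sub p q ∧ B x y q)) e → ¬ E e I →
  ∃ q V, Sub p q ∧ Bad w I e q V

/-- ECL: what membership of a nice name in the system means for conditions: a finite set at the
index `e` can be enlarged without touching the rest -/
def ECLStmt : Prop := ∀ (M : Type) [SetStr M] [ZF M] (w I e s s' x : M), Sys w I → E e I →
  E s (PP w I) → E s' (PP w I) → Sub s s' → E x w →
  (∀ y, E (opair e y) s → (∃ q, Sub q s' ∧ Tr e x y q) ∧ ∃ q, Sub q s' ∧ Tr e y x q) →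
  (∃ q, Sub q s' ∧ Tr e x x q) →
  ∃ r, E r (PP w I) ∧ Sub s r ∧ E (opair e x) r

/-! ## Part G: the generic extension -/

/-- ACX: the extension satisfies the axiom of choice -/
def ACXStmt : Prop := ∀ (M : Type) [SetStr M] [ZFC M] [Countable M] (F : FPoset M) (G : M → Prop),
  Gen F G → ZFC (Ext F G)

/-- FNX: finite subsets of sets of `M` are in `M` -/
def FNXStmt : Prop := ∀ (M : Type) [SetStr M] [ZF M] (F : FPoset M) (G : M → Prop), Gen F G →
  ∀ [ZF (Ext F G)] (X : M) (a : Ext F G), Fnt a → Sub a (emb F G X) →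
    ∃ b, Fnt b ∧ Sub b X ∧ a = emb F G b

/-- COV: countable sets of the extension are covered by countable sets of `M` -/
def COVStmt : Prop := ∀ (M : Type) [SetStr M] [ZFC M] [Countable M] (w I : M) (G : M → Prop),
  IsW w → CCC (PP w I) → Gen (PF w I) G → ∀ [ZF (Ext (PF w I) G)],
  ∀ (X : M) (a : Ext (PF w I) G), Cb a → Sub a (emb _ G X) → ∃ c : M, Cb c ∧ Sub a (emb _ G c)

/-- WX: the first uncountable ordinal is preserved; countable sets stay countable -/
def WXStmt : Prop := ∀ (M : Type) [SetStr M] [ZFC M] [Countable M] (w I : M) (G : M → Prop),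
  IsW w → CCC (PP w I) → Gen (PF w I) G → ∀ [ZF (Ext (PF w I) G)],
  IsW (emb (PF w I) G w) ∧ (∀ x : M, Cb x → Cb (emb (PF w I) G x)) ∧
  ∀ x : M, Cb (emb (PF w I) G x) → Cb x

section
variable {M : Type} [SetStr M]

/-- `f` is free for `B` (pairs with equal entries included) -/
def Fr (B f : M) : Prop := ∀ x y, E x f → E y f → PairIn x y B

theorem Fr_u : UDf (fun M _ (v : Fin 2 → M) => Fr (v 0) (v 1)) := by unfold Fr; infer_instance

instance {n : ℕ} {t s : (Fin n → M) → M} [ht : DfT t] [hs : DfT s] :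
    Df (fun v => Fr (t v) (s v)) := (Fr_u.df M).comp2 (R := fun a b => Fr a b) ht hs

/-- every member of `K` which is a free set can be enlarged by arbitrarily large elements of
`w`: the statement which is forced -/
def ExtF (K w B : M) : Prop := ∀ f, E f K → Fr B f → ∀ b, E b w → ∃ x, E x w ∧ E b x ∧
  PairIn x x B ∧ ∀ y, E y f → PairIn x y B ∧ PairIn y x B

theorem ExtF_u : UDf (fun M _ (v : Fin 3 → M) => ExtF (v 0) (v 1) (v 2)) := by
  unfold ExtF Fr; infer_instance

/-- the predicate `(x, y) ∈ B`, for the forcing relation -/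
def QPr (N : Type) [SetStr N] (v : Fin 3 → N) : Prop := PairIn (v 0) (v 1) (v 2)

/-- the predicate `ExtF`, for the forcing relation -/
def QEx (N : Type) [SetStr N] (v : Fin 3 → N) : Prop := ExtF (v 0) (v 1) (v 2)

instance QPr_df : UDf QPr := by
  unfold QPr
  exact PairIn_u

instance QEx_df : UDf QEx := ExtF_u

end

section
variable {M : Type} [SetStr M] [ZF M]

/-- every finite free subset of `w` can be enlarged by arbitrarily large elements -/
def EE (w B : M) : Prop := ∀ f, Fnt f → Sub f w → Fr B f → ∀ b, E b w →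
  ∃ x, E x w ∧ E b x ∧ Fr B (ins x f)

theorem EE_df : Cl2 (fun w B : M => EE w B) := by unfold EE; infer_instance

/-- there is an uncountable set of finite free sets no two of which have a free union -/
def NCC (w B : M) : Prop := ∃ A, ¬ Cb A ∧ (∀ f, E f A → Fnt f ∧ Sub f w ∧ Fr B f) ∧
  ∀ f f', E f A → E f' A → f ≠ f' → ¬ Fr B (bun f f')

/-- there is an uncountable free subset of `w` -/
def UF (w B : M) : Prop := ∃ A, Sub A w ∧ ¬ Cb A ∧ Fr B A

/-- the set of finite subsets of `w` -/
noncomputable def Fs (w : M) : M := sep (pow w) (fun f => Fnt f)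

instance {n : ℕ} {t : (Fin n → M) → M} [ht : DfT t] : DfT (fun v => Fs (t v)) :=
  DfT.comp1 (f := fun w => Fs w) (by unfold Fs; infer_instance) ht

/-- `q` forces `(x, y) ∈ t` -/
def FB (w I t x y q : M) : Prop := E q (PP w I) ∧
  FS (PF w I) QPr q ![chk (PF w I) x, chk (PF w I) y, t]

/-- the relation named below `p`: `q` is incompatible with `p`, or `q` contains `p` and forces
`(x, y) ∈ t` -/
def DB (w I t p x y q : M) : Prop := ¬ Cpt (PP w I) q p ∨ (Sub p q ∧ FB w I t x y q)

end

/-- FBF: `FB` is a definable monotone relation, and the truth lemma for it -/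
def FBFStmt : Prop := ∀ (M : Type) [SetStr M] [ZF M] [Countable M] (w I t : M),
  Cl3 (fun x y q : M => FB w I t x y q) ∧
  (∀ x y q q', FB w I t x y q → E q' (PP w I) → Sub q q' → FB w I t x y q') ∧
  ∀ G, Gen (PF w I) G → ∀ [ZF (Ext (PF w I) G)], ∀ x y,
    (E (opair (emb (PF w I) G x) (emb _ G y)) (mk _ G t) ↔ ∃ q, G q ∧ FB w I t x y q)

/-- NB1: a bad sequence gives an uncountable antichain in the extension -/
def NB1Stmt : Prop := ∀ (M : Type) [SetStr M] [ZFC M] [Countable M] (w H I : M), Mx w H I →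
  ∀ G, Gen (PF w I) G → ∀ [ZFC (Ext (PF w I) G)], ∀ t p e q V : M,
  G p → Nice w I (DB w I t p) e → ¬ E e I → Sub p q → G q → Bad w I e q V →
  NCC (emb (PF w I) G w) (mk _ G t)

/-- NB2: if the nice name is in the system then the generic filter gives an uncountable free
set -/
def NB2Stmt : Prop := ∀ (M : Type) [SetStr M] [ZFC M] [Countable M] (w H I : M), Mx w H I →
  ∀ G, Gen (PF w I) G → ∀ [ZFC (Ext (PF w I) G)], ∀ t p e : M,
  G p → FS (PF w I) QEx p ![chk (PF w I) (Fs w), chk (PF w I) w, t] →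
  Nice w I (DB w I t p) e → E e I → UF (emb (PF w I) G w) (mk _ G t)

/-- NB3: the principle for the extension, for relations such that finite free sets can be
enlarged -/
def NB3Stmt : Prop := ∀ (M : Type) [SetStr M] [ZFC M] [Countable M] (w H I : M), Mx w H I →
  ∀ G, Gen (PF w I) G → ∀ [ZFC (Ext (PF w I) G)], ∀ B : Ext (PF w I) G,
  EE (emb (PF w I) G w) B → NCC (emb (PF w I) G w) B ∨ UF (emb (PF w I) G w) B

/-- the principle: every relation on `w` (with uncountable domain of vertices) such that the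
finite free sets have no uncountable antichain has an uncountable free set -/
def FREE {M : Type} [SetStr M] [ZF M] (w : M) : Prop := ∀ B : M,
  ¬ Cb (sep w (fun x => E (opair x x) B)) → NCC w B ∨ UF w B

/-- FRE: the general principle from the case where finite free sets can be enlarged -/
def FREStmt : Prop := ∀ (M : Type) [SetStr M] [ZFC M] (w : M), IsW w →
  (∀ B, EE w B → NCC w B ∨ UF w B) → FREE w

/-- GMAIN: every countable model of ZFC has a generic extension which is a model of ZFC with the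
principle -/
def GMAINStmt : Prop := ∀ (M : Type) [SetStr M] [ZFC M] [Countable M],
  ∃ (N : Type) (_ : SetStr N) (_ : ZFC N) (i : M → N), IsGenExt i ∧ ∃ w : N, IsW w ∧ FREE w

end SW
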